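import Mathlib

/-!
MP_dc28e4_co: the two-colour Ramsey number, the zero-sum Ramsey number and their largest quotient `f m`, for forests with `m`
edges. A copy of `G` in `K_n` is an injective homomorphism of `G` to the complete graph on `Fin n` (Mathlib: `SimpleGraph.Copy`),
a colouring of the edges is a `SimpleGraph.TopEdgeLabeling`.
-/

set_option autoImplicit false

namespace Pool.Agent.Helper59.ZSR

open SimpleGraph

/-- `R(G,2)`: the least `n` such that for every colouring of the edges of `K_n` with two colours there is a copy of `G` in `K_n`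
all of whose edges have the same colour. -/
noncomputable def ramseyTwo {V : Type} (G : SimpleGraph V) : ℕ :=
  sInf {n : ℕ | ∀ c : TopEdgeLabeling (Fin n) Bool, ∃ (φ : Copy G (⊤ : SimpleGraph (Fin n))) (b : Bool),
    ∀ e : G.edgeSet, c (φ.mapEdgeSet e) = b}

/-- `R(G,ℤ_m)`: the least `n` such that for every map `c` of the edges of `K_n` to `ℤ_m` there is a copy of `G` in `K_n` such that
the sum of the values of `c` over the edges of the copy is zero. -/
noncomputable def ramseyZero {V : Type} (G : SimpleGraph V) (m : ℕ) : ℕ :=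
  sInf {n : ℕ | ∀ c : TopEdgeLabeling (Fin n) (ZMod m), ∃ φ : Copy G (⊤ : SimpleGraph (Fin n)),
    ∑ᶠ e : G.edgeSet, c (φ.mapEdgeSet e) = 0}

/-- The quotients `R(G,ℤ_m) / R(G,2)` of all forests `G` with exactly `m` edges. -/
def quotients (m : ℕ) : Set ℝ :=
  {x | ∃ (k : ℕ) (G : SimpleGraph (Fin k)), G.IsAcyclic ∧ G.edgeSet.ncard = m ∧
    x = (ramseyZero G m : ℝ) / (ramseyTwo G : ℝ)}

/-- `f(m)`: the supremum of the quotients. -/
noncomputable def f (m : ℕ) : ℝ := sSup (quotients m)

end Pool.Agent.Helper59.ZSR
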