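import Pool.Agent.Helper59.ZSR.Defs
import Pool.Agent.Helper40.RamseyK
import Pool.Agent.S11846

/-!
MP_dc28e4_co: `f(m) ≥ 18/17 - 11/m` for all `m ≥ 1`.
-/

set_option autoImplicit false
open scoped Classical

namespace Pool.Agent.Helper59.ZSR

open SimpleGraph

/-! ### copies in complete graphs -/

/-- an injective map as a copy in the complete graph -/
def cop {V W : Type} (G : SimpleGraph V) (g : V → W) (hg : Function.Injective g) :
    Copy G (⊤ : SimpleGraph W) :=
  ⟨⟨g, fun {_ _} h => fun h' => h.ne (hg h')⟩, hg⟩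

theorem cop_edge {V W K : Type} (G : SimpleGraph V) (g : V → W) (hg : Function.Injective g)
    (c : TopEdgeLabeling W K) (γ : K)
    (h : ∀ u v (huv : G.Adj u v), c ⟨s(g u, g v), fun h' => huv.ne (hg h')⟩ = γ) (e : G.edgeSet) :
    c ((cop G g hg).mapEdgeSet e) = γ := by
  obtain ⟨e, he⟩ := e
  induction e using Sym2.inductionOn with
  | _ u v => exact h u v he

/-- monochromatic complete subgraphs -/
theorem ramsey (K : Type) [Fintype K] [Nonempty K] (q : ℕ) : ∃ N : ℕ, ∀ n, N ≤ n →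
    ∀ c : TopEdgeLabeling (Fin n) K, ∃ g : Fin q → Fin n, Function.Injective g ∧ ∃ γ : K,
      ∀ x y (h : g x ≠ g y), c ⟨s(g x, g y), h⟩ = γ := by
  obtain ⟨N, hN⟩ := Pool.Agent.Helper40.ramseyK_tuple 2 (Fintype.card K) q Fintype.card_pos
  refine ⟨N, fun n hn c => ?_⟩
  let e := Fintype.equivFin K
  let ι : Fin N → Fin n := Fin.castLE hn
  have hι : Function.Injective ι := Fin.castLE_injective hn
  obtain ⟨g, hg, i, hi⟩ := hN (fun s => e (if h : ι (s 0) ≠ ι (s 1) then c ⟨s(ι (s 0), ι (s 1)), h⟩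
    else Classical.arbitrary K))
  refine ⟨fun x => ι (g x), hι.comp hg.injective, e.symm i, ?_⟩
  have key : ∀ x y, x < y → ∀ h : ι (g x) ≠ ι (g y), c ⟨s(ι (g x), ι (g y)), h⟩ = e.symm i := by
    intro x y hxy h
    have h1 := hi ![x, y] (by
      intro a b hab
      fin_cases a <;> fin_cases b <;> simp_all)
    have h2 : ι ((g ∘ ![x, y]) 0) ≠ ι ((g ∘ ![x, y]) 1) := h
    rw [dif_pos h2] at h1
    rw [← h1, Equiv.symm_apply_apply]
    rfl
  intro x y h
  have hne : x ≠ y := fun h' => h (by rw [h'])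
  rcases lt_or_gt_of_ne hne with hlt | hlt
  · exact key x y hlt h
  · have h1 := key y x hlt h.symm
    rw [← h1]
    congr 1
    exact Subtype.ext Sym2.eq_swap

/-- the number of vertices which are not isolated -/
theorem card_support {k : ℕ} (G : SimpleGraph (Fin k)) :
    (Finset.univ.filter fun v => ∃ w, G.Adj v w).card ≤ 2 * G.edgeSet.ncard := by
  have h1 := G.sum_degrees_eq_twice_card_edges
  have h2 : G.edgeSet.ncard = G.edgeFinset.card := by
    rw [← SimpleGraph.coe_edgeFinset, Set.ncard_coe_finset]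
  rw [h2, ← h1]
  calc (Finset.univ.filter fun v => ∃ w, G.Adj v w).card
      = ∑ v ∈ Finset.univ.filter (fun v => ∃ w, G.Adj v w), 1 := by simp
    _ ≤ ∑ v ∈ Finset.univ.filter (fun v => ∃ w, G.Adj v w), G.degree v := by
        apply Finset.sum_le_sum
        intro v hv
        obtain ⟨w, hw⟩ := (Finset.mem_filter.1 hv).2
        exact (G.degree_pos_iff_exists_adj v).2 ⟨w, hw⟩
    _ ≤ ∑ v, G.degree v := Finset.sum_le_sum_of_subset (Finset.filter_subset _ _)

/-- a graph with `m` edges and at most `n` vertices in a complete graph with a given complete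
subgraph with `2 m` vertices -/
theorem embed {k n : ℕ} (G : SimpleGraph (Fin k)) (hk : k ≤ n)
    (g : Fin (2 * G.edgeSet.ncard) → Fin n) (hg : Function.Injective g) :
    ∃ φ : Fin k → Fin n, Function.Injective φ ∧ ∀ u, (∃ w, G.Adj u w) → ∃ x, φ u = g x := by
  let S : Finset (Fin k) := Finset.univ.filter fun v => ∃ w, G.Adj v w
  have hS : Fintype.card S ≤ Fintype.card (Fin (2 * G.edgeSet.ncard)) := by
    rw [Fintype.card_coe, Fintype.card_fin]
    exact card_support G
  obtain ⟨j⟩ := Function.Embedding.nonempty_of_card_le hS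
  let f0 : Fin k → Fin n := fun v => if h : v ∈ S then g (j ⟨v, h⟩) else Fin.castLE hk v
  have hinj : Set.InjOn f0 S := by
    intro u hu v hv huv
    have hu' : u ∈ S := hu
    have hv' : v ∈ S := hv
    simp only [f0, dif_pos hu', dif_pos hv'] at huv
    have := j.injective (hg huv)
    exact congrArg Subtype.val this
  have hc : (S.image f0).card ≤ k := by
    refine Finset.card_image_le.trans ?_
    exact (Finset.card_le_univ S).trans (by rw [Fintype.card_fin])
  obtain ⟨t, ht1, -, ht2⟩ := Finset.exists_subsuperset_card_eq (Finset.subset_univ (S.image f0)) hc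
    (by rw [Finset.card_univ, Fintype.card_fin]; exact hk)
  obtain ⟨e, he⟩ := Finset.exists_equiv_extend_of_card_eq (α := Fin k) (t := t)
    (by rw [Fintype.card_fin, ht2]) ht1 hinj
  refine ⟨fun v => (e v : Fin n), Subtype.val_injective.comp e.injective, ?_⟩
  rintro u ⟨w, hw⟩
  have hu : u ∈ S := Finset.mem_filter.2 ⟨Finset.mem_univ _, w, hw⟩
  refine ⟨j ⟨u, hu⟩, ?_⟩
  exact (he u hu).trans (dif_pos hu)

/-- the zero-sum Ramsey number is at most `max k N` -/
theorem zero_mem (m : ℕ) (hm : 1 ≤ m) : ∃ N : ℕ, ∀ (k : ℕ) (G : SimpleGraph (Fin k)),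
    G.edgeSet.ncard = m → ∀ n, k ≤ n → N ≤ n → ∀ c : TopEdgeLabeling (Fin n) (ZMod m),
      ∃ φ : Copy G (⊤ : SimpleGraph (Fin n)), ∑ᶠ e : G.edgeSet, c (φ.mapEdgeSet e) = 0 := by
  have : NeZero m := ⟨by omega⟩
  obtain ⟨N, hN⟩ := ramsey (ZMod m) (2 * m)
  refine ⟨N, ?_⟩
  intro k G hG n hk hn c
  subst hG
  obtain ⟨g, hg, γ, hγ⟩ := hN n hn c
  obtain ⟨φ, hφ, h1⟩ := embed G hk g hg
  refine ⟨cop G φ hφ, ?_⟩
  have h2 : ∀ e : G.edgeSet, c ((cop G φ hφ).mapEdgeSet e) = γ := by
    apply cop_edge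
    intro u v huv
    obtain ⟨x, hx⟩ := h1 u ⟨v, huv⟩
    obtain ⟨y, hy⟩ := h1 v ⟨u, huv.symm⟩
    have hne : g x ≠ g y := by
      rw [← hx, ← hy]
      exact fun h => huv.ne (hφ h)
    rw [← hγ x y hne]
    congr 1
    apply Subtype.ext
    show s(φ u, φ v) = s(g x, g y)
    rw [hx, hy]
  rw [finsum_congr h2, finsum_eq_sum_of_fintype, Finset.sum_const, Finset.card_univ,
    ← Nat.card_eq_fintype_card, Nat.card_coe_set_eq, nsmul_eq_mul, ZMod.natCast_self, zero_mul]

/-- the two-colour Ramsey number exists and is at least the number of vertices -/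
theorem two_ge {k : ℕ} (G : SimpleGraph (Fin k)) : k ≤ ramseyTwo G := by
  obtain ⟨N, hN⟩ := ramsey Bool k
  have hne : {n : ℕ | ∀ c : TopEdgeLabeling (Fin n) Bool,
      ∃ (φ : Copy G (⊤ : SimpleGraph (Fin n))) (b : Bool),
        ∀ e : G.edgeSet, c (φ.mapEdgeSet e) = b}.Nonempty := by
    refine ⟨N, fun c => ?_⟩
    obtain ⟨g, hg, γ, hγ⟩ := hN N le_rfl c
    exact ⟨cop G g hg, γ, cop_edge G g hg c γ fun u v huv => hγ u v _⟩
  obtain ⟨φ, -⟩ := Nat.sInf_mem hne (fun _ => true)
  have h := Fintype.card_le_of_injective _ φ.injective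
  rw [Fintype.card_fin, Fintype.card_fin] at h
  exact h

theorem bdd (m : ℕ) (hm : 1 ≤ m) : BddAbove (quotients m) := by
  obtain ⟨N, hN⟩ := zero_mem m hm
  refine ⟨1 + N, ?_⟩
  rintro x ⟨k, G, -, hG, rfl⟩
  have h1 : ramseyZero G m ≤ k + N :=
    Nat.sInf_le fun c => hN k G hG (k + N) (Nat.le_add_right _ _) (Nat.le_add_left _ _) c
  have h2 := two_ge G
  have hk : 1 ≤ k := by
    by_contra h
    have h0 : k = 0 := by omega
    subst h0
    have : G.edgeSet = ∅ := by
      rw [Set.eq_empty_iff_forall_notMem]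
      intro e
      induction e using Sym2.inductionOn with
      | _ u v => exact u.elim0
    rw [this, Set.ncard_empty] at hG
    omega
  have h3 : (0 : ℝ) < (ramseyTwo G : ℝ) := by
    have : 0 < ramseyTwo G := by omega
    exact_mod_cast this
  rw [div_le_iff₀ h3]
  have h4 : (ramseyZero G m : ℝ) ≤ (k : ℝ) + N := by exact_mod_cast h1
  have h5 : (k : ℝ) ≤ (ramseyTwo G : ℝ) := by exact_mod_cast h2
  have h6 : (1 : ℝ) ≤ (ramseyTwo G : ℝ) := by exact_mod_cast (show 1 ≤ ramseyTwo G by omega)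
  have h7 : (0 : ℝ) ≤ (N : ℝ) := Nat.cast_nonneg _
  nlinarith

/-! ### a star and independent edges -/

/-- The disjoint union of a star with `a` leaves (centre `0`) and `b` independent edges. -/
def gs (a b : ℕ) : SimpleGraph (Fin (a + 2 * b + 1)) :=
  SimpleGraph.mk (fun u v =>
    (u.val = 0 ∧ 1 ≤ v.val ∧ v.val ≤ a) ∨ (v.val = 0 ∧ 1 ≤ u.val ∧ u.val ≤ a) ∨
    (a + 1 ≤ u.val ∧ u.val ≤ a + b ∧ v.val = u.val + b) ∨
    (a + 1 ≤ v.val ∧ v.val ≤ a + b ∧ u.val = v.val + b))
    (by constructor; intro u v h; omega) (by constructor; intro u h; omega)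

theorem gs_adj (a b : ℕ) (u v : Fin (a + 2 * b + 1)) : (gs a b).Adj u v ↔
    ((u.val = 0 ∧ 1 ≤ v.val ∧ v.val ≤ a) ∨ (v.val = 0 ∧ 1 ≤ u.val ∧ u.val ≤ a) ∨
    (a + 1 ≤ u.val ∧ u.val ≤ a + b ∧ v.val = u.val + b) ∨
    (a + 1 ≤ v.val ∧ v.val ≤ a + b ∧ u.val = v.val + b)) := Iff.rfl

theorem gs_nbr (a b : ℕ) (u v w : Fin (a + 2 * b + 1)) (hu : u.val ≠ 0)
    (h1 : (gs a b).Adj u v) (h2 : (gs a b).Adj u w) : v = w := by
  rw [gs_adj] at h1 h2
  apply Fin.ext
  omega

theorem gs_acyclic (a b : ℕ) : (gs a b).IsAcyclic := by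
  have key : ∀ (v : Fin (a + 2 * b + 1)) (c : (gs a b).Walk v v), v.val ≠ 0 → ¬ c.IsCycle := by
    intro v c hv hc
    have h1 := hc.snd_ne_penultimate
    have hnil : ¬ c.Nil := hc.not_nil
    exact h1 (gs_nbr a b v _ _ hv (c.adj_snd hnil) (c.adj_penultimate hnil).symm)
  intro v c hc
  by_cases hv : v.val = 0
  · have hnil : ¬ c.Nil := hc.not_nil
    have ha := c.adj_snd hnil
    have hs : c.snd.val ≠ 0 := by
      rw [gs_adj] at ha
      omega
    have hmem : c.snd ∈ c.support := c.getVert_mem_support 1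
    exact key c.snd (c.rotate c.snd hmem) hs (hc.rotate hmem)
  · exact key v c hv hc

theorem gs_degree_zero (a b : ℕ) (u : Fin (a + 2 * b + 1)) (hu : u.val = 0) :
    (gs a b).degree u = a := by
  rw [← SimpleGraph.card_neighborFinset_eq_degree]
  have h : (gs a b).neighborFinset u =
      Finset.filter (fun v : Fin (a + 2 * b + 1) => 1 ≤ v.val ∧ v.val ≤ a) Finset.univ := by
    ext v
    rw [SimpleGraph.mem_neighborFinset, gs_adj]
    simp only [Finset.mem_filter, Finset.mem_univ, true_and]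
    omega
  rw [h]
  by_cases ha : a = 0
  · subst ha
    rw [Finset.card_eq_zero, Finset.filter_eq_empty_iff]
    intro v _
    omega
  have h2 : Finset.filter (fun v : Fin (a + 2 * b + 1) => 1 ≤ v.val ∧ v.val ≤ a) Finset.univ
      = Finset.Icc (⟨1, by omega⟩ : Fin (a + 2 * b + 1)) ⟨a, by omega⟩ := by
    ext v
    simp [Finset.mem_Icc, Fin.le_def]
  rw [h2, Fin.card_Icc]
  simp

theorem gs_degree_one (a b : ℕ) (u : Fin (a + 2 * b + 1)) (hu : u.val ≠ 0) :
    (gs a b).degree u = 1 := by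
  rw [← SimpleGraph.card_neighborFinset_eq_degree, Finset.card_eq_one]
  have h0 : 0 < a + 2 * b + 1 := by omega
  have hlt := u.isLt
  have hex : ∃ w, (gs a b).Adj u w := by
    by_cases h1 : u.val ≤ a
    · refine ⟨⟨0, h0⟩, ?_⟩
      rw [gs_adj]
      exact Or.inr (Or.inl ⟨rfl, by omega, h1⟩)
    · by_cases h2 : u.val ≤ a + b
      · refine ⟨⟨u.val + b, by omega⟩, ?_⟩
        rw [gs_adj]
        exact Or.inr (Or.inr (Or.inl ⟨by omega, h2, rfl⟩))
      · refine ⟨⟨u.val - b, by omega⟩, ?_⟩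
        rw [gs_adj]
        refine Or.inr (Or.inr (Or.inr ⟨?_, ?_, ?_⟩))
        · show a + 1 ≤ u.val - b
          omega
        · show u.val - b ≤ a + b
          omega
        · show u.val = u.val - b + b
          omega
  obtain ⟨w, hw⟩ := hex
  refine ⟨w, ?_⟩
  ext v
  rw [SimpleGraph.mem_neighborFinset, Finset.mem_singleton]
  constructor
  · intro h
    exact gs_nbr a b u v w hu h hw
  · intro h
    rw [h]
    exact hw

theorem gs_sum (a b : ℕ) (ha : 1 ≤ a) (F : Fin (a + 2 * b + 1) → ℕ) :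
    (∑ u : Fin (a + 2 * b + 1), (gs a b).degree u • F u) = (a - 1) * F 0 + ∑ u, F u := by
  have h1 : ∀ u : Fin (a + 2 * b + 1), (gs a b).degree u • F u =
      (if u.val = 0 then (a - 1) * F u else 0) + F u := by
    intro u
    by_cases hu : u.val = 0
    · rw [gs_degree_zero a b u hu, if_pos hu, smul_eq_mul]
      obtain ⟨a', rfl⟩ := Nat.exists_eq_add_of_le' ha
      rw [Nat.add_sub_cancel]
      ring
    · rw [gs_degree_one a b u hu, if_neg hu, one_smul, zero_add]
  rw [Finset.sum_congr rfl fun u _ => h1 u, Finset.sum_add_distrib,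
    Pool.Agent.S11846.sum_ite_zero]

theorem gs_card (a b : ℕ) (ha : 1 ≤ a) : (gs a b).edgeSet.ncard = a + b := by
  have h1 := (gs a b).sum_degrees_eq_twice_card_edges
  have h2 := gs_sum a b ha (fun _ => (1 : ℕ))
  simp only [smul_eq_mul, mul_one, Finset.sum_const, Finset.card_univ, Fintype.card_fin] at h2
  rw [h2] at h1
  rw [← SimpleGraph.coe_edgeFinset, Set.ncard_coe_finset]
  omega

/-- the sum over the edges as a double sum -/
theorem sum_edges {k : ℕ} (G : SimpleGraph (Fin k)) (h : Sym2 (Fin k) → ℕ) :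
    ∑ e : G.edgeSet, h e.1 =
      ∑ u : Fin k, ∑ v : Fin k, if u < v ∧ G.Adj u v then h s(u, v) else 0 := by
  rw [← Finset.sum_product', ← Finset.sum_filter]
  symm
  refine Finset.sum_bij (fun p hp => (⟨s(p.1, p.2), (Finset.mem_filter.1 hp).2.2⟩ : G.edgeSet))
    (fun p hp => Finset.mem_univ _) ?_ ?_ (fun p hp => rfl)
  · rintro ⟨u, v⟩ hp ⟨u', v'⟩ hp' heq
    have h1 := (Finset.mem_filter.1 hp).2.1
    have h2 := (Finset.mem_filter.1 hp').2.1
    have h3 : s(u, v) = s(u', v') := congrArg Subtype.val heq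
    rw [Sym2.eq_iff] at h3
    rcases h3 with ⟨h4, h5⟩ | ⟨h4, h5⟩
    · rw [h4, h5]
    · simp only at h1 h2
      subst h4 h5
      exact absurd h1 (not_lt_of_gt h2)
  · rintro ⟨e, he⟩ _
    induction e using Sym2.inductionOn with
    | _ u v =>
      have hadj : G.Adj u v := he
      rcases lt_or_gt_of_ne hadj.ne with h1 | h1
      · exact ⟨(u, v), Finset.mem_filter.2 ⟨Finset.mem_univ _, h1, hadj⟩, rfl⟩
      · refine ⟨(v, u), Finset.mem_filter.2 ⟨Finset.mem_univ _, h1, hadj.symm⟩, ?_⟩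
        exact Subtype.ext Sym2.eq_swap

/-- the lower bound: no `n ≤ 2 (a + b) - 2` is good -/
theorem lower (a b : ℕ) (ha : 1 ≤ a) (n : ℕ) (hn : n ≤ 2 * (a + b) - 2) :
    ¬ ∀ c : TopEdgeLabeling (Fin n) (ZMod (a + b)), ∃ φ : Copy (gs a b) (⊤ : SimpleGraph (Fin n)),
      ∑ᶠ e : (gs a b).edgeSet, c (φ.mapEdgeSet e) = 0 := by
  intro h
  let F : Fin n → ℕ := fun x => if x.val < a + b - 1 then 0 else 1
  let g : Sym2 (Fin n) → ℕ := Sym2.lift ⟨fun x y => F x + F y, fun x y => add_comm _ _⟩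
  obtain ⟨φ, hsum⟩ := h (fun e => ((g e.1 : ℕ) : ZMod (a + b)))
  let f : Fin (a + 2 * b + 1) → Fin n := φ.toHom
  have hf : Function.Injective f := φ.injective
  have h1 : (∑ᶠ e : (gs a b).edgeSet, ((g (φ.mapEdgeSet e).1 : ℕ) : ZMod (a + b))) =
      ((∑ e : (gs a b).edgeSet, g (Sym2.map f e.1) : ℕ) : ZMod (a + b)) := by
    rw [finsum_eq_sum_of_fintype]
    push_cast
    rfl
  have h2 : (∑ e : (gs a b).edgeSet, g (Sym2.map f e.1)) =
      (a - 1) * F (f 0) + ∑ u, F (f u) := by
    rw [sum_edges (gs a b) (fun e => g (Sym2.map f e)), ← gs_sum a b ha (fun u => F (f u)),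
      ← Pool.Agent.S11846.sum_formula (gs a b) (fun u => F (f u))]
    rfl
  have hsum2 : ((((a - 1) * F (f 0) + ∑ u, F (f u) : ℕ)) : ZMod (a + b)) = 0 := by
    rw [← h2, ← h1]
    exact hsum
  rw [ZMod.natCast_eq_zero_iff] at hsum2
  have hF0 : F (f 0) = 0 ∨ F (f 0) = 1 := by
    simp only [F]
    split_ifs <;> simp
  have hcount : (∑ u, F (f u)) = (Finset.univ.filter
      (fun u : Fin (a + 2 * b + 1) => ¬ (f u).val < a + b - 1)).card := by
    rw [Finset.card_filter]
    refine Finset.sum_congr rfl fun u _ => ?_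
    simp only [F]
    split_ifs <;> simp_all
  have hup : (Finset.univ.filter
      (fun u : Fin (a + 2 * b + 1) => ¬ (f u).val < a + b - 1)).card ≤ a + b - 1 := by
    have : (Finset.univ.filter
      (fun u : Fin (a + 2 * b + 1) => ¬ (f u).val < a + b - 1)).card ≤
        (Finset.Ico (a + b - 1) n).card := by
      apply Finset.card_le_card_of_injOn (fun u => (f u).val)
      · intro u hu
        simp only [Finset.coe_filter, Finset.mem_univ, true_and, Set.mem_ofPred_eq] at hu
        simp only [Finset.coe_Ico, Set.mem_Ico]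
        exact ⟨by omega, (f u).isLt⟩
      · intro u _ v _ huv
        exact hf (Fin.ext huv)
    rw [Nat.card_Ico] at this
    omega
  have hlow : (Finset.univ.filter
      (fun u : Fin (a + 2 * b + 1) => (f u).val < a + b - 1)).card ≤ a + b - 1 := by
    have : (Finset.univ.filter
      (fun u : Fin (a + 2 * b + 1) => (f u).val < a + b - 1)).card ≤
        (Finset.range (a + b - 1)).card := by
      apply Finset.card_le_card_of_injOn (fun u => (f u).val)
      · intro u hu
        simp only [Finset.coe_filter, Finset.mem_univ, true_and, Set.mem_ofPred_eq] at hu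
        simp only [Finset.coe_range, Set.mem_Iio]
        exact hu
      · intro u _ v _ huv
        exact hf (Fin.ext huv)
    rw [Finset.card_range] at this
    exact this
  have htot := Finset.card_filter_add_card_filter_not (s := (Finset.univ : Finset (Fin (a + 2 * b + 1))))
    (fun u : Fin (a + 2 * b + 1) => (f u).val < a + b - 1)
  rw [Finset.card_univ, Fintype.card_fin] at htot
  rw [hcount] at hsum2
  obtain ⟨q, hq⟩ := hsum2
  rcases hF0 with h0 | h0
  · rw [h0, mul_zero, zero_add] at hq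
    have hq1 : q < 1 := by
      by_contra hcon
      have : (a + b) * 1 ≤ (a + b) * q := Nat.mul_le_mul_left _ (by omega)
      omega
    have hq0 : q = 0 := by omega
    subst hq0
    omega
  · rw [h0, mul_one] at hq
    have hq1 : q < 2 := by
      by_contra hcon
      have : (a + b) * 2 ≤ (a + b) * q := Nat.mul_le_mul_left _ (by omega)
      omega
    have hq0 : 1 < q := by
      by_contra hcon
      have : (a + b) * q ≤ (a + b) * 1 := Nat.mul_le_mul_left _ (by omega)
      omega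
    omega

theorem zero_ge (a b : ℕ) (ha : 1 ≤ a) : 2 * (a + b) - 1 ≤ ramseyZero (gs a b) (a + b) := by
  by_contra hcon
  obtain ⟨N, hN⟩ := zero_mem (a + b) (by omega)
  have hmem := Nat.sInf_mem (s := {n : ℕ | ∀ c : TopEdgeLabeling (Fin n) (ZMod (a + b)),
      ∃ φ : Copy (gs a b) (⊤ : SimpleGraph (Fin n)),
        ∑ᶠ e : (gs a b).edgeSet, c (φ.mapEdgeSet e) = 0})
    ⟨a + 2 * b + 1 + N, fun c => hN _ (gs a b) (gs_card a b ha) _ (Nat.le_add_right _ _)
      (Nat.le_add_left _ _) c⟩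
  refine lower a b ha _ ?_ hmem
  unfold ramseyZero at hcon
  omega

/-- the upper bound -/
theorem two_le (a b : ℕ) (hb : 1 ≤ b) (h : a ≤ 8 * b + 8) :
    ramseyTwo (gs a b) ≤ 17 * b + 18 := by
  refine Nat.sInf_le fun c => ?_
  have e0 : 17 * b + 18 = 17 * (b + 1) + 1 := by ring
  revert c
  rw [e0]
  intro c
  obtain ⟨f, hf, β, hβ⟩ := Pool.Agent.S11846.upper (b + 1) (by omega)
    (fun e => if h : e ∈ (⊤ : SimpleGraph (Fin (17 * (b + 1) + 1))).edgeSet then c ⟨e, h⟩ else false)
  let j : Fin (a + 2 * b + 1) → Fin (10 * (b + 1) + 1) := fun x =>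
    ⟨if x.val ≤ a then x.val else if x.val ≤ a + b then x.val - a + 8 * (b + 1)
      else x.val - (a + b) + 9 * (b + 1), by
        have := x.isLt
        split_ifs <;> omega⟩
  have hj : Function.Injective j := by
    intro x y hxy
    have h1 := congrArg Fin.val hxy
    simp only [j] at h1
    apply Fin.ext
    have hx := x.isLt
    have hy := y.isLt
    split_ifs at h1 <;> omega
  have hadj : ∀ x y, (gs a b).Adj x y → (Pool.Agent.S11846.gr (b + 1)).Adj (j x) (j y) := by
    intro x y hxy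
    rw [gs_adj] at hxy
    rw [Pool.Agent.S11846.gr_adj]
    simp only [j]
    have hx := x.isLt
    have hy := y.isLt
    rcases hxy with h1 | h1 | h1 | h1
    · left
      rw [if_pos (by omega), if_pos (by omega)]
      omega
    · right
      left
      rw [if_pos (by omega), if_pos (by omega)]
      omega
    · right
      right
      left
      rw [if_neg (show ¬ x.val ≤ a by omega), if_pos (show x.val ≤ a + b by omega),
        if_neg (show ¬ y.val ≤ a by omega), if_neg (show ¬ y.val ≤ a + b by omega)]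
      omega
    · right
      right
      right
      rw [if_neg (show ¬ y.val ≤ a by omega), if_pos (show y.val ≤ a + b by omega),
        if_neg (show ¬ x.val ≤ a by omega), if_neg (show ¬ x.val ≤ a + b by omega)]
      omega
  refine ⟨cop (gs a b) (fun x => f (j x)) (hf.comp hj), β, ?_⟩
  apply cop_edge
  intro u v huv
  have h1 := hβ _ _ (hadj u v huv)
  have h2 : s(f (j u), f (j v)) ∈ (⊤ : SimpleGraph (Fin (17 * (b + 1) + 1))).edgeSet :=
    fun h' => huv.ne (hj (hf h'))
  rw [dif_pos h2] at h1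
  exact h1

theorem f_ge (m : ℕ) (hm : 1 ≤ m) : 18 / 17 - 11 / (m : ℝ) ≤ f m := by
  have hm0 : (0 : ℝ) < (m : ℝ) := by exact_mod_cast hm
  by_cases h9 : m < 9
  · have h1 : (0 : ℝ) ≤ f m := by
      apply Real.sSup_nonneg
      rintro x ⟨k, G, -, -, rfl⟩
      positivity
    have h2 : (m : ℝ) ≤ 9 := by exact_mod_cast h9.le
    have h3 : (11 : ℝ) / 9 ≤ 11 / (m : ℝ) := by
      apply div_le_div_of_nonneg_left (by norm_num) hm0 h2
    linarith
  · obtain ⟨b, a, hb, ha, hab, ha8, hb9⟩ : ∃ b a : ℕ, 1 ≤ b ∧ 1 ≤ a ∧ a + b = m ∧ a ≤ 8 * b + 8 ∧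
        9 * b ≤ m := ⟨m / 9, m - m / 9, by omega, by omega, by omega, by omega, by omega⟩
    have h1 := zero_ge a b ha
    have h2 := two_le a b hb ha8
    have h3 : (ramseyZero (gs a b) m : ℝ) / (ramseyTwo (gs a b) : ℝ) ≤ f m := by
      apply le_csSup (bdd m hm)
      exact ⟨_, gs a b, gs_acyclic a b, by rw [gs_card a b ha, hab], rfl⟩
    have hk := two_ge (gs a b)
    have h4 : (0 : ℝ) < (ramseyTwo (gs a b) : ℝ) := by
      exact_mod_cast (show 0 < ramseyTwo (gs a b) by omega)
    rw [hab] at h1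
    have h5 : (2 * (m : ℝ) - 1) ≤ (ramseyZero (gs a b) m : ℝ) := by
      have : ((2 * m - 1 : ℕ) : ℝ) ≤ (ramseyZero (gs a b) m : ℝ) := by exact_mod_cast h1
      rw [Nat.cast_sub (by omega)] at this
      push_cast at this
      exact this
    have h6 : (ramseyTwo (gs a b) : ℝ) ≤ 17 * (b : ℝ) + 18 := by exact_mod_cast h2
    have h7 : 9 * (b : ℝ) ≤ (m : ℝ) := by exact_mod_cast hb9
    have hb0 : (0 : ℝ) ≤ (b : ℝ) := Nat.cast_nonneg _
    refine le_trans ?_ h3
    rw [le_div_iff₀ h4]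
    refine le_trans ?_ h5
    have h8 : 18 / 17 - 11 / (m : ℝ) = (18 * m - 187) / (17 * m) := by
      field_simp
      ring
    rw [h8, div_mul_eq_mul_div, div_le_iff₀ (by positivity)]
    by_cases h10 : (18 * (m : ℝ) - 187) ≤ 0
    · have h11 : (18 * (m : ℝ) - 187) * (ramseyTwo (gs a b) : ℝ) ≤ 0 :=
        mul_nonpos_of_nonpos_of_nonneg h10 h4.le
      have h12 : (1 : ℝ) ≤ (m : ℝ) := by exact_mod_cast hm
      nlinarith
    · have h11 : (18 * (m : ℝ) - 187) * (ramseyTwo (gs a b) : ℝ) ≤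
          (18 * (m : ℝ) - 187) * (17 * (m : ℝ) / 9 + 18) := by
        apply mul_le_mul_of_nonneg_left _ (by linarith)
        linarith
      nlinarith

end Pool.Agent.Helper59.ZSR
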